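import Pool.Agent.Y113.W.Tup

/-!
# Project GF: counting bad points and bad tuples
-/

set_option autoImplicit false

open Finset.HasAntidiagonal

namespace Pool.Agent.Y113

open Classical in
/-- few bad points in short windows give few bad points -/
theorem count_windows (M E : ℕ) : ∃ c : ℝ, 0 < c ∧ c < 1 ∧ ∃ C : ℝ, 0 ≤ C ∧ ∀ B : ℕ → Prop,
    (∀ H t : ℕ, (H + 2) ^ E ≤ t → ∀ S : Finset ℕ, (∀ g ∈ S, g ≤ H ∧ B (t - g)) → S.card ≤ M) →
    ∀ T : ℕ, 1 ≤ T → (((Finset.Icc 2 T).filter B).card : ℝ) ≤ C * (T : ℝ) ^ (1 - c) := by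
  set F := E + 1 with hF
  set c : ℝ := 1 / (2 * F) with hc
  have hF1 : (1 : ℝ) ≤ F := by rw [hF]; push_cast; linarith [show (0 : ℝ) ≤ E by positivity]
  have hc0 : 0 < c := by positivity
  have hc1 : c ≤ 1 / 2 := by
    rw [hc]
    apply one_div_le_one_div_of_le (by norm_num)
    linarith
  refine ⟨c, hc0, by linarith, 4 ^ F + 1 + 4 * M, by positivity, fun B hB T hT => ?_⟩
  have hT1 : (1 : ℝ) ≤ T := by exact_mod_cast hT
  have hT0 : (0 : ℝ) < T := by linarith
  have hTc : (1 : ℝ) ≤ (T : ℝ) ^ (1 - c) := Real.one_le_rpow hT1 (by linarith)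
  -- the integer root
  obtain ⟨h, hh1, hh2⟩ : ∃ h : ℕ, h ^ (2 * F) ≤ T ∧ T < (h + 1) ^ (2 * F) := by
    have hex : ∃ n : ℕ, T < (n + 1) ^ (2 * F) := by
      refine ⟨T, ?_⟩
      calc T < T + 1 := Nat.lt_succ_self _
        _ ≤ (T + 1) ^ (2 * F) := Nat.le_self_pow (by omega) _
    refine ⟨Nat.find hex, ?_, Nat.find_spec hex⟩
    rcases Nat.eq_zero_or_pos (Nat.find hex) with h0 | h0
    · rw [h0, zero_pow (by omega)]
      exact Nat.zero_le _
    · have := Nat.find_min hex (Nat.sub_lt h0 one_pos)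
      have e : Nat.find hex - 1 + 1 = Nat.find hex := by omega
      rw [not_lt, e] at this
      exact this
  have hroot : (T : ℝ) ^ c ≤ (h : ℝ) + 1 := by
    have h1 : (T : ℝ) ≤ ((h : ℝ) + 1) ^ (2 * F) := by exact_mod_cast hh2.le
    calc (T : ℝ) ^ c ≤ (((h : ℝ) + 1) ^ (2 * F)) ^ c := Real.rpow_le_rpow hT0.le h1 hc0.le
      _ = (h : ℝ) + 1 := by
          rw [← Real.rpow_natCast, ← Real.rpow_mul (by positivity), hc]
          push_cast
          have : (2 * (F : ℝ)) * (1 / (2 * F)) = 1 := by field_simp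
          rw [this, Real.rpow_one]
  by_cases hh : h < 2
  · -- small T
    have h1 : (T : ℝ) ≤ 4 ^ F := by
      have h2 : T < 2 ^ (2 * F) := hh2.trans_le (Nat.pow_le_pow_left (by omega) _)
      rw [pow_mul] at h2
      exact_mod_cast h2.le
    have h2 : (((Finset.Icc 2 T).filter B).card : ℝ) ≤ T := by
      have h3 : ((Finset.Icc 2 T).filter B).card ≤ (Finset.Icc 2 T).card := Finset.card_filter_le _ _
      rw [Nat.card_Icc] at h3
      exact_mod_cast h3.trans (by omega)
    calc (((Finset.Icc 2 T).filter B).card : ℝ) ≤ 4 ^ F := h2.trans h1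
      _ ≤ (4 ^ F + 1 + 4 * M) * 1 := by nlinarith [show (0 : ℝ) ≤ M by positivity]
      _ ≤ _ := mul_le_mul_of_nonneg_left hTc (by positivity)
  · push Not at hh
    set L := h - 1 with hL
    have hL1 : 1 ≤ L := by omega
    -- the two parts
    have hsub : (Finset.Icc 2 T).filter B ⊆ Finset.range (h ^ F) ∪ ((Finset.Icc (h ^ F) T).filter B) := by
      intro t ht
      obtain ⟨ht1, ht2⟩ := Finset.mem_filter.1 ht
      rw [Finset.mem_Icc] at ht1
      by_cases h1 : t < h ^ F
      · exact Finset.mem_union_left _ (Finset.mem_range.2 h1)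
      · exact Finset.mem_union_right _ (Finset.mem_filter.2 ⟨Finset.mem_Icc.2 ⟨not_lt.1 h1, ht1.2⟩, ht2⟩)
    have hcard1 : ((Finset.Icc 2 T).filter B).card ≤ h ^ F + ((Finset.Icc (h ^ F) T).filter B).card := by
      refine (Finset.card_le_card hsub).trans ((Finset.card_union_le _ _).trans ?_)
      rw [Finset.card_range]
    -- blocks
    have hcard2 : ((Finset.Icc (h ^ F) T).filter B).card ≤ M * (T / L + 1) := by
      refine (Finset.card_le_mul_card_image (f := fun t => t / L) _ M fun j hj => ?_).trans ?_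
      · rw [Finset.mem_image] at hj
        obtain ⟨t₀, ht₀, ht₀j⟩ := hj
        obtain ⟨ht₀1, -⟩ := Finset.mem_filter.1 ht₀
        rw [Finset.mem_Icc] at ht₀1
        set top := j * L + (L - 1) with htop
        have htop0 : t₀ ≤ top := by
          have h1 := Nat.div_add_mod t₀ L
          have h2 := Nat.mod_lt t₀ (show 0 < L by omega)
          rw [ht₀j, mul_comm] at h1
          omega
        have hwin := hB (h - 2) top (by
          have e1 : h - 2 + 2 = h := by omega
          rw [e1]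
          calc h ^ E ≤ h ^ F := Nat.pow_le_pow_right (by omega) (by omega)
            _ ≤ t₀ := ht₀1.1
            _ ≤ top := htop0)
          ((((Finset.Icc (h ^ F) T).filter B).filter fun t => t / L = j).image fun t => top - t)
          (by
            intro g hg
            rw [Finset.mem_image] at hg
            obtain ⟨t, ht, rfl⟩ := hg
            obtain ⟨ht1, ht2⟩ := Finset.mem_filter.1 ht
            obtain ⟨ht3, ht4⟩ := Finset.mem_filter.1 ht1
            have h1 := Nat.div_add_mod t L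
            have h2 := Nat.mod_lt t (show 0 < L by omega)
            rw [ht2, mul_comm] at h1
            refine ⟨by omega, ?_⟩
            have h3 : top - (top - t) = t := by omega
            rw [h3]
            exact ht4)
        rw [Finset.card_image_of_injOn] at hwin
        · exact hwin
        · intro t ht t' ht' htt
          have ht2 := (Finset.mem_filter.1 ht).2
          have ht2' := (Finset.mem_filter.1 ht').2
          have h1 := Nat.div_add_mod t L
          have h2 := Nat.mod_lt t (show 0 < L by omega)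
          have h1' := Nat.div_add_mod t' L
          have h2' := Nat.mod_lt t' (show 0 < L by omega)
          rw [ht2, mul_comm] at h1
          rw [ht2', mul_comm] at h1'
          simp only at htt
          omega
      · refine Nat.mul_le_mul_left _ ?_
        have h1 : (((Finset.Icc (h ^ F) T).filter B).image fun t => t / L) ⊆ Finset.range (T / L + 1) := by
          intro j hj
          rw [Finset.mem_image] at hj
          obtain ⟨t, ht, rfl⟩ := hj
          have ht1 := (Finset.mem_Icc.1 (Finset.mem_filter.1 ht).1).2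
          rw [Finset.mem_range, Nat.lt_succ_iff]
          exact Nat.div_le_div_right ht1
        have h2 := Finset.card_le_card h1
        rwa [Finset.card_range] at h2
    have h3 : (((Finset.Icc 2 T).filter B).card : ℝ) ≤ (h : ℝ) ^ F + M * ((T : ℝ) / L + 1) := by
      have h4 : (((Finset.Icc 2 T).filter B).card : ℝ) ≤ ((h ^ F + M * (T / L + 1) : ℕ) : ℝ) := by
        exact_mod_cast hcard1.trans (Nat.add_le_add_left hcard2 _)
      refine h4.trans ?_
      push_cast
      have h5 : ((T / L : ℕ) : ℝ) ≤ (T : ℝ) / L := Nat.cast_div_le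
      have hM : (0 : ℝ) ≤ M := by positivity
      nlinarith
    have h5 : (h : ℝ) ^ F ≤ (T : ℝ) ^ (1 - c) := by
      have e1 : ((h : ℝ) ^ F) ^ (2 : ℕ) ≤ T := by
        rw [← pow_mul, mul_comm]
        exact_mod_cast hh1
      have e2 : (h : ℝ) ^ F ≤ (T : ℝ) ^ (1 / 2 : ℝ) := by
        rw [← Real.sqrt_eq_rpow]
        exact Real.le_sqrt_of_sq_le e1
      exact e2.trans (Real.rpow_le_rpow_of_exponent_le hT1 (by linarith))
    have h6 : (T : ℝ) / L ≤ 3 * (T : ℝ) ^ (1 - c) := by
      have hLR : ((h : ℝ) + 1) / 3 ≤ L := by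
        have e1 : (L : ℝ) = (h : ℝ) - 1 := by
          rw [hL, Nat.cast_sub (by omega)]
          simp
        have e2 : (2 : ℝ) ≤ h := by exact_mod_cast hh
        rw [e1]
        linarith
      have hTcpos : 0 < (T : ℝ) ^ c := Real.rpow_pos_of_pos hT0 _
      calc (T : ℝ) / L ≤ T / ((T : ℝ) ^ c / 3) := by
            refine div_le_div_of_nonneg_left hT0.le (by positivity) ?_
            exact (div_le_div_of_nonneg_right hroot (by norm_num)).trans hLR
        _ = 3 * (T / (T : ℝ) ^ c) := by field_simp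
        _ = 3 * (T : ℝ) ^ (1 - c) := by
            rw [Real.rpow_sub hT0, Real.rpow_one]
    have hM : (0 : ℝ) ≤ M := by positivity
    calc (((Finset.Icc 2 T).filter B).card : ℝ) ≤ (h : ℝ) ^ F + M * ((T : ℝ) / L + 1) := h3
      _ ≤ (T : ℝ) ^ (1 - c) + M * (3 * (T : ℝ) ^ (1 - c) + (T : ℝ) ^ (1 - c)) := by
          refine add_le_add h5 (mul_le_mul_of_nonneg_left (add_le_add h6 hTc) hM)
      _ = (1 + 4 * M) * (T : ℝ) ^ (1 - c) := by ring
      _ ≤ _ := by
          refine mul_le_mul_of_nonneg_right ?_ (by positivity)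
          linarith [show (0 : ℝ) ≤ 4 ^ F by positivity]

/-- the numbers of a tuple -/
def tup {σ : Type} (x : ℕ → σ → ℂ) {k : ℕ} (t : Fin k → ℕ) : Fin k × σ → ℂ := fun p => x (t p.1) p.2

open Classical in
/-- few bad tuples -/
theorem count_tuples {σ : Type} [Fintype σ] (x : ℕ → σ → ℂ)
    (hwin : ∀ δ D : ℕ, ∃ M E : ℕ, ∀ (V : Submodule ℚ ℂ), Module.Finite ℚ V → Module.finrank ℚ V ≤ D →
      ∀ (H t : ℕ), (H + 2) ^ E ≤ t → ∀ S : Finset ℕ, (∀ g ∈ S, g ≤ H ∧ Rel δ V (x (t - g))) → S.card ≤ M)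
    (δ k : ℕ) : ∀ D : ℕ, ∃ c : ℝ, 0 < c ∧ ∃ C : ℝ, 0 ≤ C ∧ ∀ V : Submodule ℚ ℂ, Module.Finite ℚ V →
      Module.finrank ℚ V ≤ D → ∀ T : ℕ, 1 ≤ T →
      (((Fintype.piFinset fun _ : Fin k => Finset.Icc 2 T).filter fun t => Rel δ V (tup x t)).card : ℝ) ≤
        C * (T : ℝ) ^ ((k : ℝ) - c) := by
  induction k with
  | zero =>
    intro D
    refine ⟨1, one_pos, 0, le_rfl, fun V _ _ T _ => ?_⟩
    rw [Finset.filter_false_of_mem, Finset.card_empty]
    · simp
    · rintro t _ ⟨P, hP0, -, -, hPv⟩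
      obtain ⟨a, rfl⟩ : ∃ a, P = MvPolynomial.C a := ⟨_, MvPolynomial.eq_C_of_isEmpty P⟩
      rw [MvPolynomial.aeval_C] at hPv
      apply hP0
      have : a = 0 := hPv
      rw [this, map_zero]
  | succ k ih =>
    intro D
    obtain ⟨c₁, hc₁, C₁, hC₁, h₁⟩ := ih D
    obtain ⟨M, E, hME⟩ := hwin δ (D * (k * Fintype.card σ + 1) ^ δ)
    obtain ⟨c₂, hc₂, hc₂1, C₂, hC₂, h₂⟩ := count_windows M E
    refine ⟨min c₁ c₂, lt_min hc₁ hc₂, C₁ + C₂, by positivity, fun V hV hVD T hT => ?_⟩
    have hT1 : (1 : ℝ) ≤ T := by exact_mod_cast hT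
    have hT0 : (0 : ℝ) < T := by linarith
    set bad₁ := (Fintype.piFinset fun _ : Fin k => Finset.Icc 2 T).filter fun t => Rel δ V (tup x t) with hbad₁
    set bad₂ : (Fin k → ℕ) → Finset ℕ := fun t => (Finset.Icc 2 T).filter fun n => Rel δ (V * (sp (tup x t)) ^ δ) (x n) with hbad₂
    have hsub : ((Fintype.piFinset fun _ : Fin (k + 1) => Finset.Icc 2 T).filter fun t => Rel δ V (tup x t)) ⊆
        ((Finset.Icc 2 T ×ˢ bad₁).image fun p => (Fin.cons p.1 p.2 : Fin (k + 1) → ℕ)) ∪
        (((Fintype.piFinset fun _ : Fin k => Finset.Icc 2 T).sigma bad₂).image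
          fun p => (Fin.cons p.2 p.1 : Fin (k + 1) → ℕ)) := by
      intro t ht
      obtain ⟨ht1, ht2⟩ := Finset.mem_filter.1 ht
      rw [Fintype.mem_piFinset] at ht1
      set e : Fin k × σ ⊕ σ ≃ Fin (k + 1) × σ :=
        { toFun := Sum.elim (fun p => (p.1.succ, p.2)) (fun s => (0, s))
          invFun := fun p => Fin.cases (Sum.inr p.2) (fun i => Sum.inl (i, p.2)) p.1
          left_inv := by rintro (⟨i, s⟩ | s) <;> simp
          right_inv := by
            rintro ⟨i, s⟩
            refine Fin.cases ?_ (fun i => ?_) i <;> simp } with he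
      have h3 := ht2.reindex e
      have h4 : (fun j => tup x t (e j)) = Sum.elim (tup x fun i => t i.succ) (x (t 0)) := by
        funext j
        rcases j with ⟨i, s⟩ | s
        · rfl
        · rfl
      rw [h4] at h3
      have htail : (fun i => t i.succ) ∈ Fintype.piFinset fun _ : Fin k => Finset.Icc 2 T := by
        rw [Fintype.mem_piFinset]
        exact fun i => ht1 i.succ
      rcases h3.split with h5 | h5
      · refine Finset.mem_union_left _ (Finset.mem_image.2 ⟨(t 0, fun i => t i.succ), ?_, ?_⟩)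
        · exact Finset.mem_product.2 ⟨ht1 0, Finset.mem_filter.2 ⟨htail, h5⟩⟩
        · funext i
          refine Fin.cases ?_ (fun i => ?_) i <;> simp
      · refine Finset.mem_union_right _ (Finset.mem_image.2 ⟨⟨fun i => t i.succ, t 0⟩, ?_, ?_⟩)
        · exact Finset.mem_sigma.2 ⟨htail, Finset.mem_filter.2 ⟨ht1 0, h5⟩⟩
        · funext i
          refine Fin.cases ?_ (fun i => ?_) i <;> simp
    have hcard : (((Fintype.piFinset fun _ : Fin (k + 1) => Finset.Icc 2 T).filter fun t => Rel δ V (tup x t)).card : ℝ) ≤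
        T * (C₁ * (T : ℝ) ^ ((k : ℝ) - c₁)) + (T : ℝ) ^ k * (C₂ * (T : ℝ) ^ (1 - c₂)) := by
      have hIcc : ((Finset.Icc 2 T).card : ℝ) ≤ T := by
        rw [Nat.card_Icc]
        exact_mod_cast (by omega : T + 1 - 2 ≤ T)
      have h3 : (((Fintype.piFinset fun _ : Fin (k + 1) => Finset.Icc 2 T).filter fun t => Rel δ V (tup x t)).card : ℝ) ≤
          ((Finset.Icc 2 T ×ˢ bad₁).card : ℝ) + (((Fintype.piFinset fun _ : Fin k => Finset.Icc 2 T).sigma bad₂).card : ℝ) := by
        exact_mod_cast (Finset.card_le_card hsub).trans ((Finset.card_union_le _ _).trans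
          (add_le_add Finset.card_image_le Finset.card_image_le))
      refine h3.trans (add_le_add ?_ ?_)
      · rw [Finset.card_product]
        push_cast
        exact mul_le_mul hIcc (h₁ V hV hVD T hT) (by positivity) (by positivity)
      · rw [Finset.card_sigma]
        push_cast
        have h4 : ∀ t ∈ Fintype.piFinset (fun _ : Fin k => Finset.Icc 2 T), ((bad₂ t).card : ℝ) ≤ C₂ * (T : ℝ) ^ (1 - c₂) := by
          intro t _
          obtain ⟨hs1, hs2⟩ := sp_fin (tup x t)
          obtain ⟨hp1, hp2⟩ := finrank_pow_le (sp (tup x t)) δ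
          obtain ⟨hq1, hq2⟩ := finrank_mul_le V ((sp (tup x t)) ^ δ)
          refine h₂ (fun n => Rel δ (V * (sp (tup x t)) ^ δ) (x n)) (hME _ hq1 (hq2.trans ?_)) T hT
          refine Nat.mul_le_mul hVD (hp2.trans (Nat.pow_le_pow_left (hs2.trans ?_) _))
          rw [Fintype.card_prod, Fintype.card_fin]
        refine (Finset.sum_le_card_nsmul _ _ _ h4).trans ?_
        rw [nsmul_eq_mul, Fintype.card_piFinset]
        simp only [Finset.prod_const, Finset.card_univ, Fintype.card_fin]
        push_cast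
        refine mul_le_mul_of_nonneg_right ?_ (by positivity)
        exact pow_le_pow_left₀ (by positivity) hIcc _
    refine hcard.trans ?_
    have e1 : (T : ℝ) * (C₁ * (T : ℝ) ^ ((k : ℝ) - c₁)) = C₁ * (T : ℝ) ^ (((k + 1 : ℕ) : ℝ) - c₁) := by
      have : (((k + 1 : ℕ) : ℝ) - c₁) = 1 + ((k : ℝ) - c₁) := by push_cast; ring
      rw [this, Real.rpow_add hT0, Real.rpow_one]
      ring
    have e2 : (T : ℝ) ^ k * (C₂ * (T : ℝ) ^ (1 - c₂)) = C₂ * (T : ℝ) ^ (((k + 1 : ℕ) : ℝ) - c₂) := by
      have : (((k + 1 : ℕ) : ℝ) - c₂) = (k : ℝ) + (1 - c₂) := by push_cast; ring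
      rw [this, Real.rpow_add hT0, Real.rpow_natCast]
      ring
    rw [e1, e2, add_mul]
    refine add_le_add (mul_le_mul_of_nonneg_left ?_ hC₁) (mul_le_mul_of_nonneg_left ?_ hC₂)
    · exact Real.rpow_le_rpow_of_exponent_le hT1 (by linarith [min_le_left c₁ c₂])
    · exact Real.rpow_le_rpow_of_exponent_le hT1 (by linarith [min_le_right c₁ c₂])

end Pool.Agent.Y113
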