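import Pool.Agent.Y113.W.Win
import Pool.Agent.Y113.W.Count

/-!
# Project GF: a bounded set of integers meets all the bad sets of a window
-/

set_option autoImplicit false

open PowerSeries Finset.HasAntidiagonal

namespace Pool.Agent.Y113

section Expo

variable {ι : Type} [Fintype ι] [DecidableEq ι]

/-- exponents of degree `≤ δ` -/
def expoI (ι : Type) [Fintype ι] [DecidableEq ι] (δ : ℕ) : Finset (ι →₀ ℕ) :=
  (Finset.range (δ + 1)).biUnion fun k => Finset.finsuppAntidiag Finset.univ k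

lemma mem_expoI {δ : ℕ} {s : ι →₀ ℕ} : s ∈ expoI ι δ ↔ ∑ i, s i ≤ δ := by
  simp [expoI]

lemma deg_eqI (s : ι →₀ ℕ) : (s.sum fun _ e => e) = ∑ i, s i := by
  rw [Finsupp.sum_fintype]
  simp

lemma aeval_expoI {δ : ℕ} {Q : MvPolynomial ι ℂ} (hQ : Q.totalDegree ≤ δ) (z : ι → ℂ) :
    MvPolynomial.aeval z Q = ∑ s : {s // s ∈ expoI ι δ}, Q.coeff s.1 * ∏ i, z i ^ (s.1 i) := by
  rw [MvPolynomial.aeval_def, MvPolynomial.eval₂_eq', Finset.sum_coe_sort (expoI ι δ) (fun s => Q.coeff s * ∏ i, z i ^ (s i))]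
  refine Finset.sum_subset (fun s hs => ?_) fun s _ hs => ?_
  · rw [mem_expoI]
    have := MvPolynomial.le_totalDegree hs
    rw [deg_eqI] at this
    exact this.trans hQ
  · rw [MvPolynomial.notMem_support_iff.1 hs]
    simp

lemma eq_zero_of_expoI {δ : ℕ} {Q : MvPolynomial ι ℂ} (hQ : Q.totalDegree ≤ δ)
    (h : ∀ s ∈ expoI ι δ, Q.coeff s = 0) : Q = 0 := by
  ext s
  rw [MvPolynomial.coeff_zero]
  by_contra h0
  have hs : s ∈ Q.support := MvPolynomial.mem_support_iff.2 h0
  have := MvPolynomial.le_totalDegree hs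
  rw [deg_eqI] at this
  exact h0 (h s (mem_expoI.2 (this.trans hQ)))

end Expo

/-- the part of the exponents which belongs to the `i`-th group of variables -/
lemma part_le {k δ : ℕ} (s : {s // s ∈ expoI (Fin k × Fin 3) δ}) (i : Fin k) : s.1 (i, 0) + s.1 (i, 1) + s.1 (i, 2) ≤ δ := by
  have h1 := mem_expoI.1 s.2
  rw [Fintype.sum_prod_type] at h1
  have h2 := Finset.single_le_sum (f := fun i => ∑ j, s.1 (i, j)) (fun _ _ => Nat.zero_le _) (Finset.mem_univ i)
  rw [Fin.sum_univ_three] at h2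
  exact h2.trans h1

/-- the exponents of the `i`-th group as exponents in four variables -/
def ixk {k : ℕ} (δ : ℕ) (s : {s // s ∈ expoI (Fin k × Fin 3) δ}) (i : Fin k) : Ex δ :=
  ⟨![⟨s.1 (i, 0), by have := part_le s i; omega⟩, ⟨s.1 (i, 1), by have := part_le s i; omega⟩,
     ⟨s.1 (i, 2), by have := part_le s i; omega⟩, 0], by
    refine ⟨?_, Or.inr rfl⟩
    rw [Fin.sum_univ_four]
    simpa using part_le s i⟩

lemma ixk_val {k : ℕ} (δ : ℕ) (s : {s // s ∈ expoI (Fin k × Fin 3) δ}) (i : Fin k) :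
    (((ixk δ s i).1 0 : Fin (δ + 1)) : ℕ) = s.1 (i, 0) ∧ (((ixk δ s i).1 1 : Fin (δ + 1)) : ℕ) = s.1 (i, 1) ∧
    (((ixk δ s i).1 2 : Fin (δ + 1)) : ℕ) = s.1 (i, 2) ∧ (((ixk δ s i).1 3 : Fin (δ + 1)) : ℕ) = 0 := ⟨rfl, rfl, rfl, rfl⟩

lemma ixk_inj {k : ℕ} (δ : ℕ) : Function.Injective (ixk (k := k) δ) := by
  intro s s' h
  apply Subtype.ext
  ext ⟨i, j⟩
  obtain ⟨a0, a1, a2, -⟩ := ixk_val δ s i
  obtain ⟨b0, b1, b2, -⟩ := ixk_val δ s' i
  fin_cases j
  · show s.1 (i, 0) = s'.1 (i, 0)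
    rw [← a0, ← b0, h]
  · show s.1 (i, 1) = s'.1 (i, 1)
    rw [← a1, ← b1, h]
  · show s.1 (i, 2) = s'.1 (i, 2)
    rw [← a2, ← b2, h]

/-- the linear substitution in all groups of variables -/
noncomputable def LK (k : ℕ) (β γ : ℝ) (p : Fin k × Fin 3) : MvPolynomial (Fin k × Fin 3) ℂ :=
  MvPolynomial.rename (fun b => (p.1, b)) (Ls β γ p.2)

/-- its inverse -/
noncomputable def LK' (k : ℕ) (β γ : ℝ) (p : Fin k × Fin 3) : MvPolynomial (Fin k × Fin 3) ℂ :=
  MvPolynomial.rename (fun b => (p.1, b)) (Ls' β γ p.2)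

lemma LK_inv (k : ℕ) (β γ : ℝ) (hβ : β ≠ 0) (P : MvPolynomial (Fin k × Fin 3) ℂ) :
    MvPolynomial.aeval (LK' k β γ) (MvPolynomial.aeval (LK k β γ) P) = P := by
  have h2 : MvPolynomial.aeval (LK' k β γ) (MvPolynomial.aeval (LK k β γ) P) =
      MvPolynomial.aeval (fun i => MvPolynomial.aeval (LK' k β γ) (LK k β γ i)) P := by
    rw [← MvPolynomial.comp_aeval_apply]
  rw [h2]
  have h1 : ∀ p, MvPolynomial.aeval (LK' k β γ) (LK k β γ p) = (MvPolynomial.X p : MvPolynomial (Fin k × Fin 3) ℂ) := by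
    rintro ⟨i, a⟩
    unfold LK
    rw [MvPolynomial.aeval_rename]
    have h3 : (LK' k β γ ∘ fun b => (i, b)) = fun b => MvPolynomial.rename (fun b => (i, b)) (Ls' β γ b) := rfl
    rw [h3]
    have h4 := Ls_inv β γ hβ (MvPolynomial.X a)
    rw [MvPolynomial.aeval_X] at h4
    have h5 := congrArg (MvPolynomial.rename (R := ℂ) (fun b : Fin 3 => ((i, b) : Fin k × Fin 3))) h4
    rw [MvPolynomial.rename_X] at h5
    rw [← h5]
    rw [← MvPolynomial.comp_aeval_apply]
  simp only [h1]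
  exact MvPolynomial.aeval_X_left_apply P

lemma DC.rename {σ τ : Type} {n : ℕ} {W : Submodule ℚ ℂ} {P : MvPolynomial σ ℂ} (h : DC n W P) {f : σ → τ}
    (hf : Function.Injective f) : DC n W (MvPolynomial.rename f P) := by
  refine ⟨(MvPolynomial.totalDegree_rename_le _ _).trans h.1, fun s => ?_⟩
  by_cases hs : ∃ u, Finsupp.mapDomain f u = s
  · obtain ⟨u, rfl⟩ := hs
    rw [MvPolynomial.coeff_rename_mapDomain f hf]
    exact h.2 u
  · rw [MvPolynomial.coeff_rename_eq_zero]
    · exact Submodule.zero_mem _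
    · intro u hu
      exact absurd ⟨u, hu⟩ hs

lemma LK_DC (k : ℕ) (β γ : ℝ) {W : Submodule ℚ ℂ} (hW : ∀ i, cns β γ i ∈ W) (p : Fin k × Fin 3) :
    DC 1 W (LK k β γ p) := by
  refine (Ls_DC β γ hW p.2).rename ?_
  intro a b h
  simpa using h

/-- the dichotomy -/
lemma disjoint_or {k : ℕ} (Bad : (Fin k → ℕ) → Prop) (hB : ∀ t, Bad t → Function.Injective t) (r : ℕ) :
    (∃ g : Fin r → Fin k → ℕ, (∀ l, Bad (g l)) ∧ Function.Injective (fun p : Fin r × Fin k => g p.1 p.2)) ∨
    ∃ S : Finset ℕ, S.card ≤ r * k ∧ ∀ t, Bad t → ∃ i, t i ∈ S := by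
  classical
  induction r with
  | zero => exact Or.inl ⟨fun l => l.elim0, fun l => l.elim0, fun p => p.1.elim0⟩
  | succ r ih =>
    rcases ih with ⟨g, hg, hinj⟩ | ⟨S, hS, hS'⟩
    · set S : Finset ℕ := Finset.univ.image (fun p : Fin r × Fin k => g p.1 p.2) with hS
      by_cases h : ∃ t, Bad t ∧ ∀ i, t i ∉ S
      · obtain ⟨t, ht, htS⟩ := h
        left
        refine ⟨Fin.cons t g, fun l => ?_, ?_⟩
        · refine Fin.cases ?_ (fun l => ?_) l
          · simpa using ht
          · simpa using hg l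
        · rintro ⟨l, i⟩ ⟨l', i'⟩
          refine Fin.cases ?_ (fun l => ?_) l
          · refine Fin.cases ?_ (fun l' => ?_) l'
            · intro h1
              have : t i = t i' := h1
              rw [hB t ht this]
            · intro h1
              have h2 : t i = g l' i' := h1
              exact absurd (Finset.mem_image.2 ⟨(l', i'), Finset.mem_univ _, h2.symm⟩) (htS i)
          · refine Fin.cases ?_ (fun l' => ?_) l'
            · intro h1
              have h2 : g l i = t i' := h1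
              exact absurd (Finset.mem_image.2 ⟨(l, i), Finset.mem_univ _, h2⟩) (htS i')
            · intro h1
              have h2 : g l i = g l' i' := h1
              have h3 := hinj (a₁ := (l, i)) (a₂ := (l', i')) h2
              simp only [Prod.mk.injEq] at h3
              rw [h3.1, h3.2]
      · right
        push Not at h
        refine ⟨S, ?_, h⟩
        calc S.card ≤ (Finset.univ : Finset (Fin r × Fin k)).card := Finset.card_image_le
          _ = r * k := by simp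
          _ ≤ (r + 1) * k := Nat.mul_le_mul_right _ (by omega)
    · exact Or.inr ⟨S, hS.trans (Nat.mul_le_mul_right _ (by omega)), hS'⟩

/-- a bounded set of integers meets all the bad `k`-sets of a window -/
theorem win_k (hG : T_G) (hF : T_fin) (hLI : T_LI) (hev : T_ev) (hel : T_elim) (k δ D : ℕ) :
    ∃ M E : ℕ, ∀ (V : Submodule ℚ ℂ), Module.Finite ℚ V → Module.finrank ℚ V ≤ D →
    ∀ (H t : ℕ), (H + 2) ^ E ≤ t → ∃ S : Finset ℕ, S.card ≤ M ∧ ∀ g : Fin k → ℕ, Function.Injective g →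
    (∀ i, g i ≤ H ∧ g i ∉ S) → ¬ Rel δ V (tup per fun i => t - g i) := by
  obtain ⟨E₁, α, β, hβ, hval⟩ := hev
  obtain ⟨E₀, hsd⟩ := t_sd
  choose qF EF hF' using fun m => hF (m * k) δ
  choose EG hG' using fun m => hG (Fintype.card (Fin (m * k) → Ex δ)) (qF m)
  set M := D * 4 ^ δ with hM
  set E := 1 + E₁ + (E₀ + 1) + ∑ m ∈ Finset.range (M + 1), (EF m + 1) * EG m with hE
  refine ⟨M * k, E, ?_⟩
  intro V hVf hV H t ht
  -- sizes
  have hH2 : (1 : ℝ) ≤ (H : ℝ) + 2 := one_le_base H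
  have htR : ((H : ℝ) + 2) ^ E ≤ t := by exact_mod_cast ht
  have hge : ∀ a ≤ E, ((H : ℝ) + 2) ^ a ≤ t := fun a ha => (base_mono hH2 ha).trans htR
  have ht2 : H + 2 ≤ t := by
    have h1 : H + 2 ≤ (H + 2) ^ E := Nat.le_self_pow (by omega) _
    exact h1.trans ht
  have ht0 : (0 : ℝ) < t := by exact_mod_cast (by omega : 0 < t)
  set γ := α + β / 2 * Real.log t with hγ
  -- the space of coefficients
  set W : Submodule ℚ ℂ := Submodule.span ℚ (Set.range (cns β γ)) with hW
  have hWm : ∀ i, cns β γ i ∈ W := fun i => Submodule.subset_span ⟨i, rfl⟩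
  have hW1 : (1 : ℂ) ∈ W := hWm 0
  have hWfin : Module.Finite ℚ W := Module.Finite.span_of_finite ℚ (Set.finite_range _)
  have hWrank : Module.finrank ℚ W ≤ 4 := (finrank_range_le_card _).trans (by simp)
  obtain ⟨hWδ, hWδ'⟩ := finrank_pow_le W δ
  obtain ⟨hV'f, hV'r⟩ := finrank_mul_le V (W ^ δ)
  set V' := V * W ^ δ with hV'
  set m := Module.finrank ℚ V' with hm
  have hmM : m ≤ M := by
    refine hV'r.trans (Nat.mul_le_mul hV (hWδ'.trans (Nat.pow_le_pow_left hWrank _)))
  -- bad tuples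
  set Bad : (Fin k → ℕ) → Prop := fun g => Function.Injective g ∧ (∀ i, g i ≤ H) ∧ Rel δ V (tup per fun i => t - g i)
    with hBad
  have hrel : ∀ g, Bad g → ∃ Q : MvPolynomial (Fin k × Fin 3) ℂ, Q ≠ 0 ∧ DC δ V' Q ∧ MvPolynomial.aeval
      (fun p : Fin k × Fin 3 => (![(ev t (uu (g p.1)) : ℂ), (ev t (vv (g p.1)) : ℂ), (ev t (ww (g p.1)) : ℂ)] :
        Fin 3 → ℂ) p.2) Q = 0 := by
    rintro g ⟨hginj, hgH, P, hP0, hPd, hPc, hPv⟩
    refine ⟨MvPolynomial.aeval (LK k β γ) P, ?_, DC.subst' hW1 _ (LK_DC k β γ hWm) ⟨hPd, hPc⟩, ?_⟩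
    · intro h0
      have := LK_inv k β γ hβ P
      rw [h0, map_zero] at this
      exact hP0 this.symm
    · have h1 : MvPolynomial.aeval (fun p : Fin k × Fin 3 => (![(ev t (uu (g p.1)) : ℂ), (ev t (vv (g p.1)) : ℂ),
          (ev t (ww (g p.1)) : ℂ)] : Fin 3 → ℂ) p.2) (MvPolynomial.aeval (LK k β γ) P) =
          MvPolynomial.aeval (fun i => MvPolynomial.aeval
          (fun p : Fin k × Fin 3 => (![(ev t (uu (g p.1)) : ℂ), (ev t (vv (g p.1)) : ℂ),
          (ev t (ww (g p.1)) : ℂ)] : Fin 3 → ℂ) p.2) (LK k β γ i)) P := by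
        rw [← MvPolynomial.comp_aeval_apply]
      rw [h1]
      have h2 : (fun i => MvPolynomial.aeval (fun p : Fin k × Fin 3 => (![(ev t (uu (g p.1)) : ℂ), (ev t (vv (g p.1)) : ℂ),
          (ev t (ww (g p.1)) : ℂ)] : Fin 3 → ℂ) p.2) (LK k β γ i)) = tup per fun i => t - g i := by
        funext ⟨i, a⟩
        unfold LK
        rw [MvPolynomial.aeval_rename]
        have hgR : (g i : ℝ) + 2 ≤ (H : ℝ) + 2 := by
          have : (g i : ℝ) ≤ H := by exact_mod_cast hgH i
          linarith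
        have hgt : ((g i : ℝ) + 2) ^ E₁ ≤ t := by
          refine le_trans (pow_le_pow_left₀ (by positivity) hgR _) (hge E₁ ?_)
          rw [hE]
          omega
        obtain ⟨v1, v2, v3, -⟩ := hval (g i) t hgt
        have hcast : (((t - g i : ℕ)) : ℝ) = (t : ℝ) - g i := by
          have := hgH i
          rw [Nat.cast_sub (by omega)]
        show _ = per (t - g i) a
        unfold per
        rw [hcast]
        have h3 : ((fun p : Fin k × Fin 3 => (![(ev t (uu (g p.1)) : ℂ), (ev t (vv (g p.1)) : ℂ),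
          (ev t (ww (g p.1)) : ℂ)] : Fin 3 → ℂ) p.2) ∘ fun b => (i, b)) = ![(ev t (uu (g i)) : ℂ), (ev t (vv (g i)) : ℂ),
          (ev t (ww (g i)) : ℂ)] := by
          funext b
          rfl
        rw [h3]
        fin_cases a
        · show MvPolynomial.aeval _ (MvPolynomial.C ((Real.pi / 2 : ℝ) : ℂ) * MvPolynomial.X 0) = (KK (1 / ((t : ℝ) - g i)) : ℂ)
          rw [map_mul, MvPolynomial.aeval_X, MvPolynomial.aeval_C, v1]
          push_cast
          rfl
        · show MvPolynomial.aeval _ (MvPolynomial.C ((Real.pi / 2 : ℝ) : ℂ) * MvPolynomial.X 1) = (EE (1 / ((t : ℝ) - g i)) : ℂ)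
          rw [map_mul, MvPolynomial.aeval_X, MvPolynomial.aeval_C, v2]
          push_cast
          rfl
        · show MvPolynomial.aeval _ (MvPolynomial.C (β : ℂ) * MvPolynomial.X 2 + MvPolynomial.C (γ : ℂ) * MvPolynomial.X 0) =
            (KK (1 - 1 / ((t : ℝ) - g i)) : ℂ)
          rw [map_add, map_mul, map_mul, MvPolynomial.aeval_X, MvPolynomial.aeval_X, MvPolynomial.aeval_C,
            MvPolynomial.aeval_C, v3, ← hγ]
          push_cast
          rfl
      rw [h2]
      exact hPv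
  -- the degenerate case
  by_cases hm0 : m = 0
  · refine ⟨∅, by simp, fun g hg hgS hR => ?_⟩
    obtain ⟨Q, hQ0, hQ, -⟩ := hrel g ⟨hg, fun i => (hgS i).1, hR⟩
    obtain ⟨s, hs⟩ := MvPolynomial.ne_zero_iff.1 hQ0
    have : 0 < m := by
      rw [hm, Module.finrank_pos_iff_exists_ne_zero]
      exact ⟨⟨Q.coeff s, hQ.2 s⟩, fun h => hs (congrArg Subtype.val h)⟩
    omega
  rcases disjoint_or Bad (fun t ht => ht.1) m with ⟨g, hg, hinj⟩ | ⟨S, hS, hS'⟩
  swap
  · refine ⟨S, hS.trans (Nat.mul_le_mul_right _ hmM), fun g hg hgS hR => ?_⟩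
    obtain ⟨i, hi⟩ := hS' g ⟨hg, fun i => (hgS i).1, hR⟩
    exact (hgS i).2 hi
  exfalso
  have hgH : ∀ l i, g l i ≤ H := fun l i => (hg l).2.1 i
  choose Q hQ0 hQ hQv using fun l => hrel (g l) (hg l)
  -- convergence
  have hcv : ∀ l i j, Cv t (base (g l i) j) := by
    intro l i j
    refine cv_base (hsd (g l i)).1 ?_ j
    have hgR : ((g l i : ℕ) : ℝ) + 2 ≤ (H : ℝ) + 2 := by
      have : ((g l i : ℕ) : ℝ) ≤ H := by exact_mod_cast hgH l i
      linarith
    refine lt_of_le_of_lt (pow_le_pow_left₀ (by positivity) hgR _) ?_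
    refine lt_of_lt_of_le ?_ (hge (E₀ + 1) (by rw [hE]; omega))
    exact pow_lt_pow_right₀ (by linarith [show (0 : ℝ) ≤ H by positivity]) (by omega)
  -- linear independence of the values
  set G : Fin (m * k) → ℕ := fun p => g (finProdFinEquiv.symm p).1 (finProdFinEquiv.symm p).2 with hGdef
  have hGinj : Function.Injective G := by
    intro p q h
    have := hinj (a₁ := finProdFinEquiv.symm p) (a₂ := finProdFinEquiv.symm q) h
    exact finProdFinEquiv.symm.injective this
  have hGH : ∀ p, G p ≤ H := fun p => hgH _ _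
  have hone : pmon (Δ := δ) G (fun _ => ⟨fun _ => 0, by simp, Or.inl rfl⟩) = 1 := by
    unfold pmon mon
    simp
  have hEG : (2 * ((H : ℝ) + 2) ^ EF m) ^ EG m ≤ t := by
    refine (pow_base H _ _).trans (hge _ ?_)
    have h1 := Finset.single_le_sum (f := fun m => (EF m + 1) * EG m) (fun _ _ => Nat.zero_le _)
      (Finset.mem_range.2 (show m < M + 1 by omega))
    rw [hE]
    omega
  have hind := hG' m (Fin (m * k) → Ex δ) (((H : ℝ) + 2) ^ EF m) (PT G) (pmon (Δ := δ) G)
    (fun _ => ⟨fun _ => 0, by simp, Or.inl rfl⟩) t le_rfl (hF' m H G hGH) hone (hLI (m * k) δ G hGinj) hEG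
    (PT_ne G t H hGH ht2)
  -- the matrix of the relations
  set bV := Module.finBasis ℚ V' with hbV
  have hsum : ∀ (x : V'), ∑ j, ((bV.repr x j : ℚ) : ℂ) * (bV j : ℂ) = (x : ℂ) := by
    intro x
    have h1 := bV.sum_repr x
    have h2 := congrArg (Submodule.subtype V') h1
    rw [map_sum] at h2
    simp only [map_smul, Submodule.subtype_apply] at h2
    rw [← h2]
    exact Finset.sum_congr rfl fun j _ => by rw [Algebra.smul_def]; rfl
  set x : Fin m → {s // s ∈ expoI (Fin k × Fin 3) δ} → ℝ := fun l s => ∏ i, ev t (mon (g l i) (ixk δ s i)) with hx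
  have hxLI : LinearIndependent ℚ (fun b : Fin m → {s // s ∈ expoI (Fin k × Fin 3) δ} => ∏ l, x l (b l)) := by
    set Φ : (Fin m → {s // s ∈ expoI (Fin k × Fin 3) δ}) → Fin (m * k) → Ex δ :=
      fun b p => ixk δ (b (finProdFinEquiv.symm p).1) (finProdFinEquiv.symm p).2 with hΦ
    have h1 := hind.comp Φ (by
      intro b b' h
      funext l
      apply ixk_inj δ
      funext i
      have := congrFun h (finProdFinEquiv (l, i))
      simp only [hΦ, Equiv.symm_apply_apply] at this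
      exact this)
    have h2 : (fun b : Fin m → {s // s ∈ expoI (Fin k × Fin 3) δ} => ∏ l, x l (b l)) =
        (fun i => ev t (pmon (Δ := δ) G i)) ∘ Φ := by
      funext b
      show _ = ev t (pmon (Δ := δ) G (Φ b))
      unfold pmon
      rw [Cv.ev_prod ht0 _ _ fun p _ => cv_mon ht0 (hcv _ _) _]
      rw [← finProdFinEquiv.prod_comp, Fintype.prod_prod_type]
      refine Finset.prod_congr rfl fun l _ => ?_
      rw [hx]
      refine Finset.prod_congr rfl fun i _ => ?_
      simp only [hΦ, Equiv.symm_apply_apply]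
    rw [h2]
    exact h1
  obtain ⟨l, hl⟩ := hel m {s // s ∈ expoI (Fin k × Fin 3) δ} x (fun j => (bV j : ℂ))
    (fun l j s => bV.repr ⟨(Q l).coeff s.1, (hQ l).2 s.1⟩ j) hxLI
    (by
      have := bV.linearIndependent
      exact this.map' (Submodule.subtype V') (Submodule.ker_subtype V')) (by
      intro l
      have h1 := hQv l
      rw [aeval_expoI (hQ l).1] at h1
      rw [Finset.sum_comm]
      rw [← h1]
      refine Finset.sum_congr rfl fun s _ => ?_
      have h2 : (∏ p : Fin k × Fin 3, (![(ev t (uu (g l p.1)) : ℂ), (ev t (vv (g l p.1)) : ℂ), (ev t (ww (g l p.1)) : ℂ)] :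
          Fin 3 → ℂ) p.2 ^ (s.1 p)) = (x l s : ℂ) := by
        rw [hx]
        simp only
        rw [Fintype.prod_prod_type]
        push_cast
        refine Finset.prod_congr rfl fun i _ => ?_
        rw [ev_mon ht0 (hcv l i), Fin.prod_univ_four, Fin.prod_univ_three]
        obtain ⟨a0, a1, a2, a3⟩ := ixk_val δ s i
        rw [a0, a1, a2, a3]
        push_cast
        rw [pow_zero, mul_one]
        rfl
      rw [h2]
      calc ∑ j, ((bV.repr ⟨(Q l).coeff s.1, (hQ l).2 s.1⟩ j : ℚ) : ℂ) * (x l s : ℂ) * (bV j : ℂ)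
          = (∑ j, ((bV.repr ⟨(Q l).coeff s.1, (hQ l).2 s.1⟩ j : ℚ) : ℂ) * (bV j : ℂ)) * (x l s : ℂ) := by
            rw [Finset.sum_mul]
            exact Finset.sum_congr rfl fun j _ => by ring
        _ = _ := by rw [hsum]) (Nat.pos_of_ne_zero hm0)
  apply hQ0 l
  refine eq_zero_of_expoI (hQ l).1 fun s hs => ?_
  have h1 : _ = (Q l).coeff s := hsum ⟨(Q l).coeff s, (hQ l).2 s⟩
  rw [← h1]
  refine Finset.sum_eq_zero fun j _ => ?_
  have h2 := congrFun (congrFun hl j) ⟨s, hs⟩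
  simp only [Pi.zero_apply] at h2
  rw [h2]
  simp

end Pool.Agent.Y113
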