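import Pool.Agent.Y113.P.Fin

/-!
# Project GF: algebra of relations with coefficients in a finite dimensional space
-/

set_option autoImplicit false

open Finset.HasAntidiagonal

namespace Pool.Agent.Y113

lemma finrank_mul_le (V W : Submodule ℚ ℂ) [Module.Finite ℚ V] [Module.Finite ℚ W] :
    Module.Finite ℚ ↥(V * W) ∧ Module.finrank ℚ ↥(V * W) ≤ Module.finrank ℚ V * Module.finrank ℚ W := by
  set bV := Module.finBasis ℚ V
  set bW := Module.finBasis ℚ W
  have h1 : V * W = Submodule.span ℚ (Set.range fun p : Fin (Module.finrank ℚ V) × Fin (Module.finrank ℚ W) =>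
      (bV p.1 : ℂ) * (bW p.2 : ℂ)) := by
    have e1 : V = Submodule.span ℚ (Set.range fun i => (bV i : ℂ)) := by
      have := bV.span_eq
      have h2 := congrArg (Submodule.map V.subtype) this
      rw [Submodule.map_span, Submodule.map_top, Submodule.range_subtype, ← Set.range_comp] at h2
      exact h2.symm
    have e2 : W = Submodule.span ℚ (Set.range fun i => (bW i : ℂ)) := by
      have := bW.span_eq
      have h2 := congrArg (Submodule.map W.subtype) this
      rw [Submodule.map_span, Submodule.map_top, Submodule.range_subtype, ← Set.range_comp] at h2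
      exact h2.symm
    conv_lhs => rw [e1, e2]
    rw [Submodule.span_mul_span]
    congr 1
    ext x
    simp only [Set.mem_mul, Set.mem_range, Prod.exists]
    constructor
    · rintro ⟨_, ⟨i, rfl⟩, _, ⟨j, rfl⟩, rfl⟩
      exact ⟨i, j, rfl⟩
    · rintro ⟨i, j, rfl⟩
      exact ⟨_, ⟨i, rfl⟩, _, ⟨j, rfl⟩, rfl⟩
  rw [h1]
  refine ⟨Module.Finite.span_of_finite ℚ (Set.finite_range _), ?_⟩
  refine (finrank_range_le_card _).trans ?_
  simp

lemma finrank_pow_le (W : Submodule ℚ ℂ) [Module.Finite ℚ W] (n : ℕ) :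
    Module.Finite ℚ ↥(W ^ n) ∧ Module.finrank ℚ ↥(W ^ n) ≤ (Module.finrank ℚ W) ^ n := by
  induction n with
  | zero =>
    rw [pow_zero, pow_zero, Submodule.one_eq_span]
    refine ⟨inferInstance, ?_⟩
    rw [finrank_span_singleton (one_ne_zero)]
  | succ n ih =>
    have := ih.1
    obtain ⟨h1, h2⟩ := finrank_mul_le (W ^ n) W
    rw [pow_succ]
    refine ⟨h1, h2.trans ?_⟩
    rw [pow_succ]
    exact Nat.mul_le_mul_right _ ih.2

/-- degree `≤ n` and coefficients in `W` -/
def DC {σ : Type} (n : ℕ) (W : Submodule ℚ ℂ) (P : MvPolynomial σ ℂ) : Prop := P.totalDegree ≤ n ∧ ∀ s, P.coeff s ∈ W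

lemma DC.mul {σ : Type} {n m : ℕ} {W W' : Submodule ℚ ℂ} {P Q : MvPolynomial σ ℂ} (h : DC n W P) (h' : DC m W' Q) :
    DC (n + m) (W * W') (P * Q) := by
  classical
  refine ⟨(MvPolynomial.totalDegree_mul _ _).trans (add_le_add h.1 h'.1), fun s => ?_⟩
  rw [MvPolynomial.coeff_mul]
  exact Submodule.sum_mem _ fun p _ => Submodule.mul_mem_mul (h.2 _) (h'.2 _)

lemma DC.pow {σ : Type} {n : ℕ} {W : Submodule ℚ ℂ} {P : MvPolynomial σ ℂ} (h : DC n W P) (k : ℕ) :
    DC (n * k) (W ^ k) (P ^ k) := by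
  classical
  induction k with
  | zero =>
    rw [pow_zero, pow_zero]
    refine ⟨by simp, fun s => ?_⟩
    rw [MvPolynomial.coeff_one]
    split_ifs
    · exact Submodule.one_le.1 le_rfl
    · exact Submodule.zero_mem _
  | succ k ih =>
    have := ih.mul h
    rw [pow_succ, pow_succ, Nat.mul_succ]
    exact this

lemma DC.one {σ : Type} (W : Submodule ℚ ℂ) (h1 : (1 : ℂ) ∈ W) : DC 0 W (1 : MvPolynomial σ ℂ) := by
  classical
  refine ⟨by simp, fun s => ?_⟩
  rw [MvPolynomial.coeff_one]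
  split_ifs
  · exact h1
  · exact Submodule.zero_mem _

lemma DC.sum {σ τ : Type} {n : ℕ} {W : Submodule ℚ ℂ} (s : Finset τ) {P : τ → MvPolynomial σ ℂ} (h : ∀ i ∈ s, DC n W (P i)) :
    DC n W (∑ i ∈ s, P i) := by
  refine ⟨MvPolynomial.totalDegree_finsetSum_le fun i hi => (h i hi).1, fun t => ?_⟩
  rw [MvPolynomial.coeff_sum]
  exact Submodule.sum_mem _ fun i hi => (h i hi).2 t

lemma DC.mono {σ : Type} {n n' : ℕ} {W W' : Submodule ℚ ℂ} {P : MvPolynomial σ ℂ} (h : DC n W P) (hn : n ≤ n')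
    (hW : W ≤ W') : DC n' W' P := ⟨h.1.trans hn, fun s => hW (h.2 s)⟩

lemma pow_mono_sub {W : Submodule ℚ ℂ} (h1 : (1 : ℂ) ∈ W) {n m : ℕ} (h : n ≤ m) : W ^ n ≤ W ^ m := by
  induction m, h using Nat.le_induction with
  | base => exact le_rfl
  | succ m _ ih =>
    refine ih.trans ?_
    intro x hx
    rw [pow_succ]
    have := Submodule.mul_mem_mul hx h1
    rwa [mul_one] at this

lemma DC.prod_pow {σ : Type} {W : Submodule ℚ ℂ} {n : ℕ} (L : Fin n → MvPolynomial σ ℂ)
    (hL : ∀ i, DC 1 W (L i)) (e : Fin n → ℕ) : DC (∑ i, e i) (W ^ (∑ i, e i)) (∏ i, L i ^ e i) := by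
  induction n with
  | zero =>
    simp only [Finset.univ_eq_empty, Finset.sum_empty, Finset.prod_empty, pow_zero]
    exact DC.one _ (Submodule.one_le.1 le_rfl)
  | succ n ih =>
    rw [Fin.prod_univ_succ, Fin.sum_univ_succ, pow_add]
    have h2 := (hL 0).pow (e 0)
    rw [one_mul] at h2
    exact h2.mul (ih (fun i => L i.succ) (fun i => hL _) fun i => e i.succ)

/-- a linear substitution -/
lemma DC.subst {n m : ℕ} {τ : Type} {V W : Submodule ℚ ℂ} (h1 : (1 : ℂ) ∈ W) (L : Fin n → MvPolynomial τ ℂ)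
    (hL : ∀ i, DC 1 W (L i)) {P : MvPolynomial (Fin n) ℂ} (hP : DC m V P) : DC m (V * W ^ m) (MvPolynomial.aeval L P) := by
  classical
  rw [MvPolynomial.aeval_def, MvPolynomial.eval₂_eq']
  refine DC.sum _ fun s hs => ?_
  have hs' : ∑ i, s i ≤ m := by
    have h2 := MvPolynomial.le_totalDegree hs
    have h3 : (s.sum fun _ e => e) = ∑ i, s i := by
      rw [Finsupp.sum_fintype]
      simp
    rw [h3] at h2
    exact h2.trans hP.1
  have h2 : DC 0 V (MvPolynomial.C (MvPolynomial.coeff s P) : MvPolynomial τ ℂ) := by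
    refine ⟨by simp, fun t => ?_⟩
    rw [MvPolynomial.coeff_C]
    split_ifs
    · exact hP.2 s
    · exact Submodule.zero_mem _
  have h3 := h2.mul (DC.prod_pow L hL s)
  rw [zero_add] at h3
  refine h3.mono hs' ?_
  exact Submodule.mul_le.2 fun a ha b hb => Submodule.mul_mem_mul ha (pow_mono_sub h1 hs' hb)

end Pool.Agent.Y113
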