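import Pool.Agent.Y113.W.Win
import Pool.Agent.Y113.W.Count
import Pool.Agent.Y141.GF.Shid
import Pool.Agent.Y37.GF.LI

/-!
# Project GF: all the pieces together
-/

set_option autoImplicit false

namespace Pool.Agent.Y113

/-- the main theorem on G-systems -/
theorem t_G : T_G := G_of Pool.Agent.Y141.GF.t_shid Pool.Agent.Y141.GF.t_loc

/-- the monomials form G-systems -/
theorem t_fin : T_fin := fin_of Pool.Agent.Y37.GF.t_ode (base_of Pool.Agent.Y37.GF.t_ode)

/-- few bad fibres in a window -/
theorem t_win : T_win := win_of t_G t_fin Pool.Agent.Y37.GF.t_LI Pool.Agent.Y37.GF.t_ev Pool.Agent.Y141.GF.t_elim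

end Pool.Agent.Y113
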