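import Pool.Agent.Y113.W.Alg
import Pool.Agent.Y113.P.Base
import Pool.Agent.Y113.G.Final

/-!
# Project GF: few bad fibres in a window
-/

set_option autoImplicit false

open PowerSeries Finset.HasAntidiagonal

namespace Pool.Agent.Y113

/-- exponents of degree `≤ δ` -/
def expo (n δ : ℕ) : Finset (Fin n →₀ ℕ) := (Finset.range (δ + 1)).biUnion fun k => Finset.finsuppAntidiag Finset.univ k

lemma mem_expo {n δ : ℕ} {s : Fin n →₀ ℕ} : s ∈ expo n δ ↔ ∑ i, s i ≤ δ := by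
  simp [expo]

lemma deg_eq {n : ℕ} (s : Fin n →₀ ℕ) : (s.sum fun _ e => e) = ∑ i, s i := by
  rw [Finsupp.sum_fintype]
  simp

lemma aeval_expo {n δ : ℕ} {Q : MvPolynomial (Fin n) ℂ} (hQ : Q.totalDegree ≤ δ) (z : Fin n → ℂ) :
    MvPolynomial.aeval z Q = ∑ s : {s // s ∈ expo n δ}, Q.coeff s.1 * ∏ i, z i ^ (s.1 i) := by
  rw [MvPolynomial.aeval_def, MvPolynomial.eval₂_eq', Finset.sum_coe_sort (expo n δ) (fun s => Q.coeff s * ∏ i, z i ^ (s i))]
  refine Finset.sum_subset (fun s hs => ?_) fun s _ hs => ?_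
  · rw [mem_expo]
    have := MvPolynomial.le_totalDegree hs
    rw [deg_eq] at this
    exact this.trans hQ
  · rw [MvPolynomial.notMem_support_iff.1 hs]
    simp

lemma eq_zero_of_expo {n δ : ℕ} {Q : MvPolynomial (Fin n) ℂ} (hQ : Q.totalDegree ≤ δ)
    (h : ∀ s ∈ expo n δ, Q.coeff s = 0) : Q = 0 := by
  ext s
  rw [MvPolynomial.coeff_zero]
  by_contra h0
  have hs : s ∈ Q.support := MvPolynomial.mem_support_iff.2 h0
  have := MvPolynomial.le_totalDegree hs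
  rw [deg_eq] at this
  exact h0 (h s (mem_expo.2 (this.trans hQ)))

/-- the exponents in three variables as exponents in four variables -/
def ix (δ : ℕ) (s : {s // s ∈ expo 3 δ}) : Ex δ :=
  ⟨![⟨s.1 0, by have := mem_expo.1 s.2; rw [Fin.sum_univ_three] at this; omega⟩,
     ⟨s.1 1, by have := mem_expo.1 s.2; rw [Fin.sum_univ_three] at this; omega⟩,
     ⟨s.1 2, by have := mem_expo.1 s.2; rw [Fin.sum_univ_three] at this; omega⟩, 0], by
    refine ⟨?_, Or.inr rfl⟩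
    have := mem_expo.1 s.2
    rw [Fin.sum_univ_three] at this
    rw [Fin.sum_univ_four]
    simpa using this⟩

lemma ix_val (δ : ℕ) (s : {s // s ∈ expo 3 δ}) : (((ix δ s).1 0 : Fin (δ + 1)) : ℕ) = s.1 0 ∧
    (((ix δ s).1 1 : Fin (δ + 1)) : ℕ) = s.1 1 ∧ (((ix δ s).1 2 : Fin (δ + 1)) : ℕ) = s.1 2 ∧
    (((ix δ s).1 3 : Fin (δ + 1)) : ℕ) = 0 := ⟨rfl, rfl, rfl, rfl⟩

lemma ix_inj (δ : ℕ) : Function.Injective (ix δ) := by
  intro s s' h
  obtain ⟨a0, a1, a2, -⟩ := ix_val δ s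
  obtain ⟨b0, b1, b2, -⟩ := ix_val δ s'
  apply Subtype.ext
  ext i
  fin_cases i
  · show s.1 0 = s'.1 0
    rw [← a0, ← b0, h]
  · show s.1 1 = s'.1 1
    rw [← a1, ← b1, h]
  · show s.1 2 = s'.1 2
    rw [← a2, ← b2, h]

/-- convergence -/
lemma cv_base {E₀ g : ℕ} {t : ℝ} (hsz : ∀ i m, |((coeff m (base g i) : ℚ) : ℝ)| ≤ (((g : ℝ) + 2) ^ E₀) ^ (m + 1))
    (ht : ((g : ℝ) + 2) ^ E₀ < t) (i : Fin 5) : Cv t (base g i) := by
  have ht0 : 0 < t := lt_of_le_of_lt (by positivity) ht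
  refine Cv.of_bound ht0 (A := ((g : ℝ) + 2) ^ E₀) (B := ((g : ℝ) + 2) ^ E₀) (by positivity) ht fun m => ?_
  rw [← pow_succ']
  exact hsz i m

lemma cv_four {g : ℕ} {t : ℝ} (h : ∀ i, Cv t (base g i)) (i : Fin 4) : Cv t (four g i) := h i.succ

lemma cv_mon {g δ : ℕ} {t : ℝ} (ht : 0 < t) (h : ∀ i, Cv t (base g i)) (e : Ex δ) : Cv t (mon g e) :=
  Cv.prod ht _ _ fun i _ => (cv_four h i).pow ht _

lemma ev_mon {g δ : ℕ} {t : ℝ} (ht : 0 < t) (h : ∀ i, Cv t (base g i)) (e : Ex δ) :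
    ev t (mon g e) = ∏ i, ev t (four g i) ^ (e.1 i : ℕ) := by
  unfold mon
  rw [Cv.ev_prod ht _ _ fun i _ => (cv_four h i).pow ht _]
  exact Finset.prod_congr rfl fun i _ => Cv.ev_pow ht (cv_four h i) _

lemma PT_ne {k : ℕ} (g : Fin k → ℕ) (t : ℕ) (H : ℕ) (hg : ∀ l, g l ≤ H) (ht : H + 2 ≤ t) :
    Polynomial.aeval (1 / (t : ℝ)) (PT g) ≠ 0 := by
  unfold PT
  rw [map_prod, Finset.prod_ne_zero_iff]
  intro l _
  have ht' : (H : ℝ) + 2 ≤ t := by exact_mod_cast ht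
  have hgl : (g l : ℝ) ≤ H := by exact_mod_cast hg l
  have ht0 : (0 : ℝ) < t := by linarith [show (0 : ℝ) ≤ H by positivity]
  simp only [TT, map_mul, map_sub, map_one, Polynomial.aeval_X, Polynomial.aeval_C, map_ofNat]
  have h1 : (1 : ℝ) - algebraMap ℤ ℝ (g l : ℤ) * (1 / t) ≠ 0 := by
    simp only [algebraMap_int_eq, eq_intCast, Int.cast_natCast]
    rw [mul_one_div, ne_eq, sub_eq_zero, eq_comm, div_eq_one_iff_eq ht0.ne']
    linarith
  have h2 : (1 : ℝ) - algebraMap ℤ ℝ ((g l : ℤ) + 1) * (1 / t) ≠ 0 := by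
    simp only [algebraMap_int_eq, eq_intCast, Int.cast_add, Int.cast_natCast, Int.cast_one]
    rw [mul_one_div, ne_eq, sub_eq_zero, eq_comm, div_eq_one_iff_eq ht0.ne']
    linarith
  have h3 : (1 / (t : ℝ)) ≠ 0 := by positivity
  exact mul_ne_zero (mul_ne_zero (mul_ne_zero two_ne_zero h3) h1) h2

/-- the constants -/
noncomputable def cns (β γ : ℝ) : Fin 4 → ℂ := ![1, (Real.pi / 2 : ℝ), β, γ]

/-- the linear substitution -/
noncomputable def Ls (β γ : ℝ) : Fin 3 → MvPolynomial (Fin 3) ℂ :=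
  ![MvPolynomial.C ((Real.pi / 2 : ℝ) : ℂ) * MvPolynomial.X 0, MvPolynomial.C ((Real.pi / 2 : ℝ) : ℂ) * MvPolynomial.X 1,
    MvPolynomial.C (β : ℂ) * MvPolynomial.X 2 + MvPolynomial.C (γ : ℂ) * MvPolynomial.X 0]

/-- its inverse -/
noncomputable def Ls' (β γ : ℝ) : Fin 3 → MvPolynomial (Fin 3) ℂ :=
  ![MvPolynomial.C (((Real.pi / 2 : ℝ) : ℂ)⁻¹) * MvPolynomial.X 0, MvPolynomial.C (((Real.pi / 2 : ℝ) : ℂ)⁻¹) * MvPolynomial.X 1,
    MvPolynomial.C ((β : ℂ)⁻¹) * (MvPolynomial.X 2 - MvPolynomial.C ((γ : ℂ) * ((Real.pi / 2 : ℝ) : ℂ)⁻¹) * MvPolynomial.X 0)]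

lemma Ls_inv (β γ : ℝ) (hβ : β ≠ 0) (P : MvPolynomial (Fin 3) ℂ) :
    MvPolynomial.aeval (Ls' β γ) (MvPolynomial.aeval (Ls β γ) P) = P := by
  have hpi : ((Real.pi / 2 : ℝ) : ℂ) ≠ 0 := by
    have : (Real.pi / 2 : ℝ) ≠ 0 := by positivity
    exact_mod_cast this
  have hβ' : (β : ℂ) ≠ 0 := by exact_mod_cast hβ
  have h1 : ∀ i, MvPolynomial.aeval (Ls' β γ) (Ls β γ i) = (MvPolynomial.X i : MvPolynomial (Fin 3) ℂ) := by
    intro i
    fin_cases i
    · show MvPolynomial.aeval (Ls' β γ) (MvPolynomial.C ((Real.pi / 2 : ℝ) : ℂ) * MvPolynomial.X 0) = MvPolynomial.X 0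
      rw [map_mul, MvPolynomial.aeval_X, MvPolynomial.aeval_C]
      show MvPolynomial.C ((Real.pi / 2 : ℝ) : ℂ) * (MvPolynomial.C (((Real.pi / 2 : ℝ) : ℂ)⁻¹) * MvPolynomial.X 0) = _
      rw [← mul_assoc, ← MvPolynomial.C_mul, mul_inv_cancel₀ hpi, MvPolynomial.C_1, one_mul]
    · show MvPolynomial.aeval (Ls' β γ) (MvPolynomial.C ((Real.pi / 2 : ℝ) : ℂ) * MvPolynomial.X 1) = MvPolynomial.X 1
      rw [map_mul, MvPolynomial.aeval_X, MvPolynomial.aeval_C]
      show MvPolynomial.C ((Real.pi / 2 : ℝ) : ℂ) * (MvPolynomial.C (((Real.pi / 2 : ℝ) : ℂ)⁻¹) * MvPolynomial.X 1) = _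
      rw [← mul_assoc, ← MvPolynomial.C_mul, mul_inv_cancel₀ hpi, MvPolynomial.C_1, one_mul]
    · show MvPolynomial.aeval (Ls' β γ) (MvPolynomial.C (β : ℂ) * MvPolynomial.X 2 + MvPolynomial.C (γ : ℂ) * MvPolynomial.X 0) =
        MvPolynomial.X 2
      rw [map_add, map_mul, map_mul, MvPolynomial.aeval_X, MvPolynomial.aeval_X, MvPolynomial.aeval_C, MvPolynomial.aeval_C]
      show MvPolynomial.C (β : ℂ) * (MvPolynomial.C ((β : ℂ)⁻¹) * (MvPolynomial.X 2 -
        MvPolynomial.C ((γ : ℂ) * ((Real.pi / 2 : ℝ) : ℂ)⁻¹) * MvPolynomial.X 0)) +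
        MvPolynomial.C (γ : ℂ) * (MvPolynomial.C (((Real.pi / 2 : ℝ) : ℂ)⁻¹) * MvPolynomial.X 0) = _
      rw [← mul_assoc, ← MvPolynomial.C_mul, mul_inv_cancel₀ hβ', MvPolynomial.C_1, one_mul, MvPolynomial.C_mul]
      ring
  have h2 : MvPolynomial.aeval (Ls' β γ) (MvPolynomial.aeval (Ls β γ) P) =
      MvPolynomial.aeval (fun i => MvPolynomial.aeval (Ls' β γ) (Ls β γ i)) P := by
    rw [← MvPolynomial.comp_aeval_apply]
  rw [h2]
  simp only [h1]
  exact MvPolynomial.aeval_X_left_apply P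

lemma Ls_DC (β γ : ℝ) {W : Submodule ℚ ℂ} (hW : ∀ i, cns β γ i ∈ W) (i : Fin 3) : DC 1 W (Ls β γ i) := by
  classical
  have key : ∀ (c : ℂ) (j : Fin 3), c ∈ W → DC 1 W (MvPolynomial.C c * MvPolynomial.X j : MvPolynomial (Fin 3) ℂ) := by
    intro c j hc
    refine ⟨?_, fun s => ?_⟩
    · refine (MvPolynomial.totalDegree_mul _ _).trans ?_
      rw [MvPolynomial.totalDegree_C, MvPolynomial.totalDegree_X]
    · rw [MvPolynomial.coeff_C_mul, MvPolynomial.coeff_X]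
      split_ifs
      · simpa using hc
      · simp
  fin_cases i
  · exact key _ _ (hW 1)
  · exact key _ _ (hW 1)
  · refine ⟨(MvPolynomial.totalDegree_add _ _).trans (max_le (key _ _ (hW 2)).1 (key _ _ (hW 3)).1), fun s => ?_⟩
    exact Submodule.add_mem _ ((key _ 2 (hW 2)).2 s) ((key _ 0 (hW 3)).2 s)

/-- few bad fibres in a window -/
theorem win_of (hG : T_G) (hF : T_fin) (hLI : T_LI) (hev : T_ev) (hel : T_elim) : T_win := by
  intro δ D
  obtain ⟨E₁, α, β, hβ, hval⟩ := hev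
  obtain ⟨E₀, hsd⟩ := t_sd
  choose qF EF hF' using fun m => hF m δ
  choose EG hG' using fun m => hG (Fintype.card (Fin m → Ex δ)) (qF m)
  set M := D * 4 ^ δ with hM
  set E := 1 + E₁ + (E₀ + 1) + ∑ m ∈ Finset.range (M + 1), (EF m + 1) * EG m with hE
  refine ⟨M, E, ?_⟩
  intro V hVf hV H t ht S hS
  by_contra hcard
  push Not at hcard
  -- sizes
  have hH2 : (1 : ℝ) ≤ (H : ℝ) + 2 := one_le_base H
  have htR : ((H : ℝ) + 2) ^ E ≤ t := by exact_mod_cast ht
  have hge : ∀ a ≤ E, ((H : ℝ) + 2) ^ a ≤ t := fun a ha => (base_mono hH2 ha).trans htR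
  have ht2 : H + 2 ≤ t := by
    have h1 : H + 2 ≤ (H + 2) ^ E := Nat.le_self_pow (by omega) _
    exact h1.trans ht
  have ht0 : (0 : ℝ) < t := by exact_mod_cast (by omega : 0 < t)
  set γ := α + β / 2 * Real.log t with hγ
  -- the space of coefficients
  set W : Submodule ℚ ℂ := Submodule.span ℚ (Set.range (cns β γ)) with hW
  have hWm : ∀ i, cns β γ i ∈ W := fun i => Submodule.subset_span ⟨i, rfl⟩
  have hW1 : (1 : ℂ) ∈ W := hWm 0
  have hWfin : Module.Finite ℚ W := Module.Finite.span_of_finite ℚ (Set.finite_range _)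
  have hWrank : Module.finrank ℚ W ≤ 4 := (finrank_range_le_card _).trans (by simp)
  obtain ⟨hWδ, hWδ'⟩ := finrank_pow_le W δ
  obtain ⟨hV'f, hV'r⟩ := finrank_mul_le V (W ^ δ)
  set V' := V * W ^ δ with hV'
  set m := Module.finrank ℚ V' with hm
  have hmM : m ≤ M := by
    refine hV'r.trans (Nat.mul_le_mul hV (hWδ'.trans (Nat.pow_le_pow_left hWrank _)))
  -- the relations
  have hrel : ∀ g ∈ S, ∃ Q : MvPolynomial (Fin 3) ℂ, Q ≠ 0 ∧ DC δ V' Q ∧ MvPolynomial.aeval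
      (![(ev t (uu g) : ℂ), (ev t (vv g) : ℂ), (ev t (ww g) : ℂ)]) Q = 0 := by
    intro g hg
    obtain ⟨hgH, P, hP0, hPd, hPc, hPv⟩ := hS g hg
    refine ⟨MvPolynomial.aeval (Ls β γ) P, ?_, DC.subst hW1 _ (Ls_DC β γ hWm) ⟨hPd, hPc⟩, ?_⟩
    · intro h0
      have := Ls_inv β γ hβ P
      rw [h0, map_zero] at this
      exact hP0 this.symm
    · have hgR : (g : ℝ) + 2 ≤ (H : ℝ) + 2 := by
        have : (g : ℝ) ≤ H := by exact_mod_cast hgH
        linarith
      have hgt : ((g : ℝ) + 2) ^ E₁ ≤ t := by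
        refine le_trans (pow_le_pow_left₀ (by positivity) hgR _) (hge E₁ ?_)
        rw [hE]
        omega
      obtain ⟨v1, v2, v3, -⟩ := hval g t hgt
      have hcast : (((t - g : ℕ)) : ℝ) = (t : ℝ) - g := by
        rw [Nat.cast_sub (by omega)]
      have h1 : MvPolynomial.aeval (![(ev t (uu g) : ℂ), (ev t (vv g) : ℂ), (ev t (ww g) : ℂ)])
          (MvPolynomial.aeval (Ls β γ) P) = MvPolynomial.aeval (fun i => MvPolynomial.aeval
          (![(ev t (uu g) : ℂ), (ev t (vv g) : ℂ), (ev t (ww g) : ℂ)]) (Ls β γ i)) P := by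
        rw [← MvPolynomial.comp_aeval_apply]
      rw [h1]
      have h2 : (fun i => MvPolynomial.aeval (![(ev t (uu g) : ℂ), (ev t (vv g) : ℂ), (ev t (ww g) : ℂ)])
          (Ls β γ i)) = per (t - g) := by
        funext i
        unfold per
        rw [hcast]
        fin_cases i
        · show MvPolynomial.aeval _ (MvPolynomial.C ((Real.pi / 2 : ℝ) : ℂ) * MvPolynomial.X 0) = (KK (1 / ((t : ℝ) - g)) : ℂ)
          rw [map_mul, MvPolynomial.aeval_X, MvPolynomial.aeval_C, v1]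
          push_cast
          rfl
        · show MvPolynomial.aeval _ (MvPolynomial.C ((Real.pi / 2 : ℝ) : ℂ) * MvPolynomial.X 1) = (EE (1 / ((t : ℝ) - g)) : ℂ)
          rw [map_mul, MvPolynomial.aeval_X, MvPolynomial.aeval_C, v2]
          push_cast
          rfl
        · show MvPolynomial.aeval _ (MvPolynomial.C (β : ℂ) * MvPolynomial.X 2 + MvPolynomial.C (γ : ℂ) * MvPolynomial.X 0) =
            (KK (1 - 1 / ((t : ℝ) - g)) : ℂ)
          rw [map_add, map_mul, map_mul, MvPolynomial.aeval_X, MvPolynomial.aeval_X, MvPolynomial.aeval_C,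
            MvPolynomial.aeval_C, v3, ← hγ]
          push_cast
          rfl
      rw [h2]
      exact hPv
  -- the dimension is positive
  have hSne : S.Nonempty := Finset.card_pos.1 (by omega)
  have hm0 : 0 < m := by
    obtain ⟨g, hg⟩ := hSne
    obtain ⟨Q, hQ0, hQ, -⟩ := hrel g hg
    obtain ⟨s, hs⟩ := MvPolynomial.ne_zero_iff.1 hQ0
    rw [hm, Module.finrank_pos_iff_exists_ne_zero]
    exact ⟨⟨Q.coeff s, hQ.2 s⟩, fun h => hs (congrArg Subtype.val h)⟩
  -- the points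
  obtain ⟨S', hS'S, hS'c⟩ := Finset.exists_subset_card_eq (show m ≤ S.card by omega)
  set g : Fin m → ℕ := fun l => S'.orderEmbOfFin hS'c l with hg
  have hginj : Function.Injective g := (S'.orderEmbOfFin hS'c).injective
  have hgS : ∀ l, g l ∈ S := fun l => hS'S (Finset.orderEmbOfFin_mem _ _ _)
  have hgH : ∀ l, g l ≤ H := fun l => (hS _ (hgS l)).1
  choose Q hQ0 hQ hQv using fun l => hrel (g l) (hgS l)
  -- convergence
  have hcv : ∀ l i, Cv t (base (g l) i) := by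
    intro l i
    refine cv_base (hsd (g l)).1 ?_ i
    have hgR : ((g l : ℕ) : ℝ) + 2 ≤ (H : ℝ) + 2 := by
      have : ((g l : ℕ) : ℝ) ≤ H := by exact_mod_cast hgH l
      linarith
    refine lt_of_le_of_lt (pow_le_pow_left₀ (by positivity) hgR _) ?_
    refine lt_of_lt_of_le ?_ (hge (E₀ + 1) (by rw [hE]; omega))
    exact pow_lt_pow_right₀ (by linarith [show (0 : ℝ) ≤ H by positivity]) (by omega)
  -- linear independence of the values
  have hone : pmon (Δ := δ) g (fun _ => ⟨fun _ => 0, by simp, Or.inl rfl⟩) = 1 := by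
    unfold pmon mon
    simp
  have hEG : (2 * ((H : ℝ) + 2) ^ EF m) ^ EG m ≤ t := by
    refine (pow_base H _ _).trans (hge _ ?_)
    have h1 := Finset.single_le_sum (f := fun m => (EF m + 1) * EG m) (fun _ _ => Nat.zero_le _)
      (Finset.mem_range.2 (show m < M + 1 by omega))
    rw [hE]
    omega
  have hind := hG' m (Fin m → Ex δ) (((H : ℝ) + 2) ^ EF m) (PT g) (pmon (Δ := δ) g)
    (fun _ => ⟨fun _ => 0, by simp, Or.inl rfl⟩) t le_rfl (hF' m H g hgH) hone (hLI m δ g hginj) hEG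
    (PT_ne g t H hgH ht2)
  -- the matrix of the relations
  set bV := Module.finBasis ℚ V' with hbV
  have hsum : ∀ (x : V'), ∑ j, ((bV.repr x j : ℚ) : ℂ) * (bV j : ℂ) = (x : ℂ) := by
    intro x
    have h1 := bV.sum_repr x
    have h2 := congrArg (Submodule.subtype V') h1
    rw [map_sum] at h2
    simp only [map_smul, Submodule.subtype_apply] at h2
    rw [← h2]
    exact Finset.sum_congr rfl fun j _ => by rw [Algebra.smul_def]; rfl
  set x : Fin m → {s // s ∈ expo 3 δ} → ℝ := fun l s => ev t (mon (g l) (ix δ s)) with hx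
  have hxLI : LinearIndependent ℚ (fun b : Fin m → {s // s ∈ expo 3 δ} => ∏ l, x l (b l)) := by
    have h1 := hind.comp (fun b : Fin m → {s // s ∈ expo 3 δ} => fun l => ix δ (b l)) (by
      intro b b' h
      funext l
      exact ix_inj δ (congrFun h l))
    have h2 : (fun b : Fin m → {s // s ∈ expo 3 δ} => ∏ l, x l (b l)) =
        (fun i => ev t (pmon (Δ := δ) g i)) ∘ (fun b : Fin m → {s // s ∈ expo 3 δ} => fun l => ix δ (b l)) := by
      funext b
      show _ = ev t (pmon (Δ := δ) g fun l => ix δ (b l))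
      unfold pmon
      rw [Cv.ev_prod ht0 _ _ fun l _ => cv_mon ht0 (hcv l) _]
    rw [h2]
    exact h1
  obtain ⟨l, hl⟩ := hel m {s // s ∈ expo 3 δ} x (fun j => (bV j : ℂ))
    (fun l j s => bV.repr ⟨(Q l).coeff s.1, (hQ l).2 s.1⟩ j) hxLI
    (by
      have := bV.linearIndependent
      exact this.map' (Submodule.subtype V') (Submodule.ker_subtype V')) (by
      intro l
      have h1 := hQv l
      rw [aeval_expo (hQ l).1] at h1
      rw [Finset.sum_comm]
      rw [← h1]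
      refine Finset.sum_congr rfl fun s _ => ?_
      have h2 : (∏ i, (![(ev t (uu (g l)) : ℂ), (ev t (vv (g l)) : ℂ), (ev t (ww (g l)) : ℂ)]) i ^ (s.1 i)) = (x l s : ℂ) := by
        rw [hx]
        simp only
        rw [ev_mon ht0 (hcv l), Fin.prod_univ_four, Fin.prod_univ_three]
        obtain ⟨a0, a1, a2, a3⟩ := ix_val δ s
        rw [a0, a1, a2, a3]
        push_cast
        rw [pow_zero, mul_one]
        rfl
      rw [h2]
      calc ∑ j, ((bV.repr ⟨(Q l).coeff s.1, (hQ l).2 s.1⟩ j : ℚ) : ℂ) * (x l s : ℂ) * (bV j : ℂ)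
          = (∑ j, ((bV.repr ⟨(Q l).coeff s.1, (hQ l).2 s.1⟩ j : ℚ) : ℂ) * (bV j : ℂ)) * (x l s : ℂ) := by
            rw [Finset.sum_mul]
            exact Finset.sum_congr rfl fun j _ => by ring
        _ = _ := by rw [hsum]) hm0
  apply hQ0 l
  refine eq_zero_of_expo (hQ l).1 fun s hs => ?_
  have h1 : _ = (Q l).coeff s := hsum ⟨(Q l).coeff s, (hQ l).2 s⟩
  rw [← h1]
  refine Finset.sum_eq_zero fun j _ => ?_
  have h2 := congrFun (congrFun hl j) ⟨s, hs⟩
  simp only [Pi.zero_apply] at h2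
  rw [h2]
  simp

end Pool.Agent.Y113
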